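import Pool.Agent.helper99.PLR.Spec

/-! Row BST of project plr (MP_d9e35a_co): the induction step for growing radius parameter. -/

set_option autoImplicit false
set_option linter.unusedVariables false

open scoped Classical

namespace Pool.Agent.PLR

open Finset
open Pool.Agent.helper65.HC (V IsEig IsTop lam)
open Pool.Agent.helper9.HQ (Fam Dn E N Le Eig lk)
open Pool.Agent.helper9.HX (Ef)
open Pool.Agent.helper9.HLR (cel Lc)

noncomputable section

theorem BST_N_nonneg {d : ℕ} (U : Fam d) (f : Finset (Fin d) → ℝ) : 0 ≤ N U f :=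
  Finset.sum_nonneg fun x _ => sq_nonneg _

theorem BST_mono {d : ℕ} (U : Fam d) {L L' : ℝ} (h : Le U L) (hL : L ≤ L') : Le U L' := by
  intro f
  exact (h f).trans (mul_le_mul_of_nonneg_right hL (BST_N_nonneg U f))

theorem BST_lev {d : ℕ} (k : ℕ) (U : Fam d) : lev k U ≤ d.choose k := by
  have h : U.filter (fun x => x.card = k) ⊆ (univ : Finset (Fin d)).powersetCard k := by
    intro x hx
    rw [Finset.mem_powersetCard]
    exact ⟨Finset.subset_univ _, (Finset.mem_filter.1 hx).2⟩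
  have h2 := Finset.card_le_card h
  rw [Finset.card_powersetCard, Finset.card_univ, Fintype.card_fin] at h2
  exact h2

/-- many upper `k`-sets imply membership in the core -/
theorem BST_core {d : ℕ} (k : ℕ) (kap : ℝ) (U : Fam d) (hU : Dn U) (hkap : kap < 1) (hd : k ≤ d)
    (w : Finset (Fin d)) (h : (1 - kap) * (d.choose k : ℝ) ≤ (upk k w U : ℝ)) : w ∈ core k kap U := by
  unfold core
  rw [Finset.mem_filter]
  refine ⟨?_, h⟩
  have hb : (0 : ℝ) < (d.choose k : ℝ) := by exact_mod_cast Nat.choose_pos hd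
  have h1 : (0 : ℝ) < (upk k w U : ℝ) := lt_of_lt_of_le (mul_pos (by linarith) hb) h
  have h2 : 0 < upk k w U := by exact_mod_cast h1
  unfold upk at h2
  obtain ⟨x, hx⟩ := Finset.card_pos.1 h2
  rw [Finset.mem_filter] at hx
  exact hU _ hx.2.2.2 _ Finset.subset_union_right

theorem BST_a1 {eta : ℝ} (he : 0 < eta) (he1 : eta ≤ 1) : 1 ≤ (1 + eta / 4) ^ 2 * (1 - 2 * (eta / 8)) := by
  have h1 : (1 + eta / 4) ^ 2 * (1 - 2 * (eta / 8)) = 1 + eta / 4 * (1 - eta / 4 - (eta / 4) ^ 2) := by ring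
  rw [h1]
  have h2 : (eta / 4) ^ 2 ≤ 1 / 16 := by nlinarith
  have h3 : 0 ≤ eta / 4 * (1 - eta / 4 - (eta / 4) ^ 2) := mul_nonneg (by linarith) (by linarith)
  linarith

theorem BST_a2 {eta : ℝ} (he : 0 < eta) (he1 : eta ≤ 1) :
    (1 + eta / 8) * (1 + eta / 4) + eta / 4 ≤ 1 + eta := by
  nlinarith

theorem BST (hHZP : HZP_stmt) (hCLA : CLA_stmt) (hCLB : CLB_stmt) (hUPA : UPA_stmt) (hCLK : CLK_stmt)
    (hCSZ : CSZ_stmt) (hZB : ZB_stmt) (hSTS : STS_stmt) (hYMQ : YMQ_stmt) (hEIE : EIE_stmt)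
    (hCLE : Pool.Agent.helper9.HLR.CLE_stmt) (hSPL : Pool.Agent.helper9.HLR.SPL_stmt) : BST_stmt := by
  intro k eta hk he he1
  have hkap0 : (0 : ℝ) < eta / 8 := by positivity
  have hkap1 : eta / 8 ≤ 1 / 4 := by linarith
  obtain ⟨th1, d1, hth1, H1⟩ := hCSZ k (eta / 8) hk hkap0 hkap1
  obtain ⟨C2, th2, d2, hC2, hth2, H2⟩ := hZB k (eta / 8) hk hkap0 hkap1
  obtain ⟨cA, thA, hcA, hcA2, hthA, dA, HA⟩ := hCLA k hk (eta / 8) hkap0 (by linarith)
  obtain ⟨cB, CB, thB, hcB, hCB, hthB, dB, HB⟩ := hCLB k hk (eta / 8) hkap0 (by linarith)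
  refine ⟨max 1 (1024 * C2 / eta ^ 2),
    min (min (min th1 th2) (min thA thB)) (min ((eta / (4 * CB)) ^ 2) (eta ^ 2 / (1024 * C2))),
    max (max (max d1 d2) (max dA dB)) (k + 1), le_max_left _ _, ?_, ?_⟩
  · refine lt_min (lt_min (lt_min hth1 hth2) (lt_min hthA hthB)) (lt_min ?_ ?_)
    · positivity
    · positivity
  intro d hd K U l f hK0 hKd hU hcard hEig hl hlk
  have hd' : (max (max (max d1 d2) (max dA dB)) (k + 1) : ℕ) ≤ d := hd
  have hdd1 : d1 ≤ d := le_trans (le_trans (le_max_left _ _) (le_trans (le_max_left _ _) (le_max_left _ _))) hd'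
  have hdd2 : d2 ≤ d := le_trans (le_trans (le_max_right _ _) (le_trans (le_max_left _ _) (le_max_left _ _))) hd'
  have hddA : dA ≤ d := le_trans (le_trans (le_max_left _ _) (le_trans (le_max_right _ _) (le_max_left _ _))) hd'
  have hddB : dB ≤ d := le_trans (le_trans (le_max_right _ _) (le_trans (le_max_right _ _) (le_max_left _ _))) hd'
  have hddk : k + 1 ≤ d := le_trans (le_max_right _ _) hd'
  have hdpos : (0 : ℝ) < (d : ℝ) := by
    have : 0 < d := by omega
    exact_mod_cast this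
  have hK1 : (1 : ℝ) ≤ K := le_trans (le_max_left _ _) hK0
  have hKpos : (0 : ℝ) < K := by linarith
  have hK2 : 1024 * C2 / eta ^ 2 ≤ K := le_trans (le_max_right _ _) hK0
  have hmin1 : K ≤ th1 * d := hKd.trans (mul_le_mul_of_nonneg_right
    (le_trans (min_le_left _ _) (le_trans (min_le_left _ _) (min_le_left _ _))) hdpos.le)
  have hmin2 : K ≤ th2 * d := hKd.trans (mul_le_mul_of_nonneg_right
    (le_trans (min_le_left _ _) (le_trans (min_le_left _ _) (min_le_right _ _))) hdpos.le)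
  have hminA : K ≤ thA * d := hKd.trans (mul_le_mul_of_nonneg_right
    (le_trans (min_le_left _ _) (le_trans (min_le_right _ _) (min_le_left _ _))) hdpos.le)
  have hminB : K ≤ thB * d := hKd.trans (mul_le_mul_of_nonneg_right
    (le_trans (min_le_left _ _) (le_trans (min_le_right _ _) (min_le_right _ _))) hdpos.le)
  have hmin5 : K ≤ (eta / (4 * CB)) ^ 2 * d := hKd.trans (mul_le_mul_of_nonneg_right
    (le_trans (min_le_right _ _) (min_le_left _ _)) hdpos.le)
  have hmin6 : K ≤ eta ^ 2 / (1024 * C2) * d := hKd.trans (mul_le_mul_of_nonneg_right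
    (le_trans (min_le_right _ _) (min_le_right _ _)) hdpos.le)
  clear hKd hd hd'
  set h : ℝ := hz (k + 1) with hh
  have hb1 : (d.choose k : ℝ) ≤ (d : ℝ) ^ k := by exact_mod_cast Nat.choose_le_pow d k
  have hb0 : (0 : ℝ) ≤ (d.choose k : ℝ) := Nat.cast_nonneg _
  have hcardK : (U.card : ℝ) ≤ K * (d : ℝ) ^ k := hcard.trans (mul_le_mul_of_nonneg_left hb1 hKpos.le)
  have hcardA : (U.card : ℝ) ≤ thA * (d : ℝ) ^ (k + 1) := by
    calc (U.card : ℝ) ≤ K * (d : ℝ) ^ k := hcardK
      _ ≤ (thA * d) * (d : ℝ) ^ k := mul_le_mul_of_nonneg_right hminA (by positivity)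
      _ = thA * (d : ℝ) ^ (k + 1) := by ring
  have hcardB : (U.card : ℝ) ≤ thB * (d : ℝ) ^ (k + 1) := by
    calc (U.card : ℝ) ≤ K * (d : ℝ) ^ k := hcardK
      _ ≤ (thB * d) * (d : ℝ) ^ k := mul_le_mul_of_nonneg_right hminB (by positivity)
      _ = thB * (d : ℝ) ^ (k + 1) := by ring
  obtain ⟨hs1, -⟩ := H1 d hdd1 K U hU hK1 hmin1 hcard
  have hZ := H2 d hdd2 K U l f hU hK1 hmin2 hcard hEig hl hlk
  set S : Finset (Fin d) := Sc k (eta / 8) U with hS
  have hsd : (0 : ℝ) < √(d : ℝ) := Real.sqrt_pos.2 hdpos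
  have hsK : (0 : ℝ) < √K := Real.sqrt_pos.2 hKpos
  have hsdsq : √(d : ℝ) ^ 2 = d := Real.sq_sqrt hdpos.le
  have hsKsq : √K ^ 2 = K := Real.sq_sqrt hKpos.le
  -- the error of the cells
  have hX : CB * K / √(d : ℝ) ≤ eta / 4 * √K := by
    have h1 : √K ≤ eta / (4 * CB) * √(d : ℝ) := by
      rw [Real.sqrt_le_left (by positivity), mul_pow, hsdsq]
      exact hmin5
    rw [div_le_iff₀ hsd]
    have h2 : CB * K = CB * √K * √K := by rw [mul_assoc, ← sq, hsKsq]
    rw [h2]
    calc CB * √K * √K ≤ CB * √K * (eta / (4 * CB) * √(d : ℝ)) :=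
          mul_le_mul_of_nonneg_left h1 (by positivity)
      _ = eta / 4 * √K * √(d : ℝ) := by field_simp
  -- all cells
  have hcell : ∀ w, w ⊆ S → Le (Lc S w U) (h * √(d : ℝ) + eta / 4 * √K) := by
    intro w hw
    obtain ⟨c1, c2, c3, c4, c5⟩ := hCLK d k U S w hU hw
    have c2' : ((Lc S w U).card : ℝ) ≤ (U.card : ℝ) := by exact_mod_cast c2
    by_cases hwc : w ∈ core k (eta / 8) U
    · have hlinks : ∀ i, (lev k (lk i (Lc S w U)) : ℝ) ≤ (1 - eta / 8) * (d.choose k : ℝ) := by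
        intro i
        by_cases hi : i ∈ S
        · rw [c4 i hi]
          have : (0 : ℝ) ≤ (1 - eta / 8) * (d.choose k : ℝ) := mul_nonneg (by linarith) hb0
          simpa using this
        · by_contra hcon
          push Not at hcon
          have h5 : (lev k (lk i (Lc S w U)) : ℝ) ≤ (upk k (insert i w) U : ℝ) := by exact_mod_cast c5 i hi
          have h6 := BST_core k (eta / 8) U hU (by linarith) (by omega) (insert i w) (by linarith)
          have h7 := (hUPA d k U (eta / 8) hU).2.2 _ h6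
          exact hi (h7 (Finset.mem_insert_self _ _))
      have hB := HB d hddB (Lc S w U) 0 c1 (c2'.trans hcardB) hlinks le_rfl zero_le_one (by
        rw [sub_zero, one_mul]
        exact_mod_cast BST_lev k (Lc S w U))
      refine BST_mono _ hB ?_
      have h8 : CB * ((Lc S w U).card : ℝ) / (√(d : ℝ) * (d : ℝ) ^ k) ≤ CB * K / √(d : ℝ) := by
        rw [div_le_div_iff₀ (by positivity) hsd]
        have h9 : ((Lc S w U).card : ℝ) ≤ K * (d : ℝ) ^ k := c2'.trans hcardK
        calc CB * ((Lc S w U).card : ℝ) * √(d : ℝ) ≤ CB * (K * (d : ℝ) ^ k) * √(d : ℝ) := by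
              apply mul_le_mul_of_nonneg_right _ hsd.le
              exact mul_le_mul_of_nonneg_left h9 hCB.le
          _ = CB * K * (√(d : ℝ) * (d : ℝ) ^ k) := by ring
      have h10 : (h - cB * 0) * √(d : ℝ) = h * √(d : ℝ) := by ring
      rw [h10]
      linarith
    · have h3 : (lev k (Lc S w U) : ℝ) ≤ (1 - eta / 8) * (d.choose k : ℝ) := by
        by_contra hcon
        push Not at hcon
        have h5 : (lev k (Lc S w U) : ℝ) ≤ (upk k w U : ℝ) := by exact_mod_cast c3
        exact hwc (BST_core k (eta / 8) U hU (by linarith) (by omega) w (by linarith))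
      have hA := HA d hddA (Lc S w U) c1 (c2'.trans hcardA) h3
      refine BST_mono _ hA ?_
      have h4 : 0 ≤ cA * √(d : ℝ) := by positivity
      have h5 : 0 ≤ eta / 4 * √K := by positivity
      rw [sub_mul]
      linarith
  -- splitting
  obtain ⟨hN, hE⟩ := hSPL d U S f hU
  rw [hEig.nrm] at hN
  have hEl := hEIE d U l f hU hEig
  rw [hEl] at hE
  have hcells : ∑ w ∈ S.powerset, Ef (cel S w U) f ≤ h * √(d : ℝ) + eta / 4 * √K := by
    calc ∑ w ∈ S.powerset, Ef (cel S w U) f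
        ≤ ∑ w ∈ S.powerset, (h * √(d : ℝ) + eta / 4 * √K) * N (cel S w U) f := by
          apply Finset.sum_le_sum
          intro w hw
          exact hCLE d U S w _ f hU (Finset.mem_powerset.1 hw) (hcell w (Finset.mem_powerset.1 hw))
      _ = h * √(d : ℝ) + eta / 4 * √K := by rw [← Finset.mul_sum, ← hN, mul_one]
  have hst := hSTS d S (fun w => √(N (cel S w U) f)) (fun w => Real.sqrt_nonneg _)
  have hn2 : ∀ w, √(N (cel S w U) f) ^ 2 = N (cel S w U) f := fun w => Real.sq_sqrt (BST_N_nonneg _ _)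
  simp only [hn2] at hst
  rw [← hN, hYMQ d U S f] at hst
  set Z : ℝ := ∑ v ∈ S.powersetCard 2, mq U f v with hZdef
  rw [mul_one, mul_one] at hst
  -- the size of `Z`
  have hZ2 : Z ≤ eta ^ 2 / 512 := by
    refine hZ.trans ?_
    have e1 : C2 * (1 / K) ≤ eta ^ 2 / 1024 := by
      rw [mul_one_div, div_le_div_iff₀ hKpos (by norm_num)]
      rw [div_le_iff₀ (by positivity)] at hK2
      linarith
    have e2 : C2 * (K / d) ≤ eta ^ 2 / 1024 := by
      have e3 : K / d ≤ eta ^ 2 / (1024 * C2) := by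
        rw [div_le_iff₀ hdpos]
        exact hmin6
      calc C2 * (K / d) ≤ C2 * (eta ^ 2 / (1024 * C2)) := mul_le_mul_of_nonneg_left e3 hC2.le
        _ = eta ^ 2 / 1024 := by field_simp
    rw [mul_add]
    linarith
  have hZ3 : 2 * √(2 * Z) ≤ eta / 8 := by
    have : √(2 * Z) ≤ eta / 16 := by
      rw [Real.sqrt_le_left (by positivity)]
      have e0 : (eta / 16) ^ 2 = 2 * (eta ^ 2 / 512) := by ring
      rw [e0]
      exact mul_le_mul_of_nonneg_left hZ2 (by norm_num)
    linarith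
  -- the size of `S`
  have hs2 : √(S.card : ℝ) ≤ (1 + eta / 4) * √K := by
    rw [Real.sqrt_le_left (by positivity), mul_pow, hsKsq]
    refine hs1.trans ?_
    rw [div_le_iff₀ (by linarith)]
    have h1 : 1 ≤ (1 + eta / 4) ^ 2 * (1 - 2 * (eta / 8)) := BST_a1 he he1
    calc K = K * 1 := by ring
      _ ≤ K * ((1 + eta / 4) ^ 2 * (1 - 2 * (eta / 8))) := mul_le_mul_of_nonneg_left h1 hKpos.le
      _ = (1 + eta / 4) ^ 2 * K * (1 - 2 * (eta / 8)) := by ring
  have hfin : √(S.card : ℝ) + 2 * √(2 * Z) * √(S.card : ℝ) ≤ (1 + eta / 8) * ((1 + eta / 4) * √K) := by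
    have h1 : √(S.card : ℝ) + 2 * √(2 * Z) * √(S.card : ℝ) = (1 + 2 * √(2 * Z)) * √(S.card : ℝ) := by ring
    rw [h1]
    exact mul_le_mul (by linarith) hs2 (Real.sqrt_nonneg _) (by linarith)
  have hlast : (1 + eta / 8) * ((1 + eta / 4) * √K) + eta / 4 * √K ≤ (1 + eta) * √K := by
    have h1 : (1 + eta / 8) * (1 + eta / 4) + eta / 4 ≤ 1 + eta := BST_a2 he he1
    calc (1 + eta / 8) * ((1 + eta / 4) * √K) + eta / 4 * √K
        = ((1 + eta / 8) * (1 + eta / 4) + eta / 4) * √K := by ring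
      _ ≤ (1 + eta) * √K := mul_le_mul_of_nonneg_right h1 hsK.le
  linarith

end

end Pool.Agent.PLR
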