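import Pool.Agent.helper99.PLR.Spec

/-! Rows CTK and EIE of project plr (MP_d9e35a_co). -/

set_option autoImplicit false
set_option linter.unusedVariables false

open scoped Classical

namespace Pool.Agent.PLR

open Finset
open Pool.Agent.helper65.HC (V IsEig IsTop lam)
open Pool.Agent.helper9.HQ (Fam Dn E N Le Eig lk)
open Pool.Agent.helper9.HX (Ef)
open Pool.Agent.helper9.HLR (cel Lc)

noncomputable section

theorem CTK_split {d : ℕ} (k : ℕ) (U : Fam d) (f : Finset (Fin d) → ℝ) :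
    N (loK k U) f + N (hiK k U) f = N U f := by
  unfold N loK hiK
  have h : U.filter (fun x => k < x.card) = U.filter (fun x => ¬ x.card ≤ k) := by
    apply Finset.filter_congr
    intro x _
    omega
  rw [h]
  exact Finset.sum_filter_add_sum_filter_not U (fun x => x.card ≤ k) (fun x => f x ^ 2)

/-- the upper neighbours -/
theorem CTK_up {d : ℕ} (k : ℕ) (U : Fam d) (hU : Dn U) (f : Finset (Fin d) → ℝ) :
    ∑ x ∈ loK k U, ∑ i ∈ univ.filter (fun i => i ∉ x ∧ insert i x ∈ U), f x * f (insert i x) =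
      ∑ y ∈ U.filter (fun y => y.card ≤ k + 1), ∑ i ∈ y, f y * f (y.erase i) := by
  rw [Finset.sum_sigma', Finset.sum_sigma']
  refine Finset.sum_bij' (fun p _ => ⟨insert p.2 p.1, p.2⟩) (fun p _ => ⟨p.1.erase p.2, p.2⟩) ?_ ?_ ?_ ?_ ?_
  · rintro ⟨x, i⟩ hp
    simp only [Finset.mem_sigma, Finset.mem_filter, loK, Finset.mem_univ, true_and] at hp ⊢
    obtain ⟨⟨hx, hc⟩, hi, hix⟩ := hp
    refine ⟨⟨hix, ?_⟩, Finset.mem_insert_self _ _⟩
    rw [Finset.card_insert_of_notMem hi]
    omega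
  · rintro ⟨y, i⟩ hp
    simp only [Finset.mem_sigma, Finset.mem_filter, loK, Finset.mem_univ, true_and] at hp ⊢
    obtain ⟨⟨hy, hc⟩, hi⟩ := hp
    refine ⟨⟨hU y hy _ (Finset.erase_subset _ _), ?_⟩, Finset.notMem_erase _ _, ?_⟩
    · rw [Finset.card_erase_of_mem hi]
      omega
    · rw [Finset.insert_erase hi]
      exact hy
  · rintro ⟨x, i⟩ hp
    simp only [Finset.mem_sigma, Finset.mem_filter, loK, Finset.mem_univ, true_and] at hp
    obtain ⟨⟨hx, hc⟩, hi, hix⟩ := hp
    simp only [Finset.erase_insert hi]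
  · rintro ⟨y, i⟩ hp
    simp only [Finset.mem_sigma, Finset.mem_filter, loK, Finset.mem_univ, true_and] at hp
    obtain ⟨⟨hy, hc⟩, hi⟩ := hp
    simp only [Finset.insert_erase hi]
  · rintro ⟨x, i⟩ hp
    simp only [Finset.mem_sigma, Finset.mem_filter, loK, Finset.mem_univ, true_and] at hp
    obtain ⟨⟨hx, hc⟩, hi, hix⟩ := hp
    simp only [Finset.erase_insert hi]
    ring

theorem CTK_three {d : ℕ} (k : ℕ) (U : Fam d) (F : Finset (Fin d) → ℝ) :
    ∑ y ∈ U.filter (fun y => y.card ≤ k + 1), F y =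
      ∑ y ∈ loK k U, F y + ∑ y ∈ U.filter (fun y => y.card = k + 1), F y := by
  rw [← Finset.sum_filter_add_sum_filter_not (U.filter (fun y => y.card ≤ k + 1)) (fun x => x.card ≤ k) F,
    Finset.filter_filter, Finset.filter_filter]
  have h1 : U.filter (fun y => y.card ≤ k + 1 ∧ y.card ≤ k) = loK k U := by
    unfold loK
    apply Finset.filter_congr
    intro x _
    omega
  have h2 : U.filter (fun y => y.card ≤ k + 1 ∧ ¬ y.card ≤ k) = U.filter (fun y => y.card = k + 1) := by
    apply Finset.filter_congr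
    intro x _
    omega
  rw [h1, h2]

theorem CTK_eq {d : ℕ} (k : ℕ) (U : Fam d) (hU : Dn U) (l : ℝ) (f : Finset (Fin d) → ℝ) (h : Eig U l f) :
    l * N (loK k U) f = E (loK k U) f + Bk k U f := by
  have h1 : l * N (loK k U) f = ∑ x ∈ loK k U, ∑ i ∈ x, f x * f (x.erase i) +
      ∑ x ∈ loK k U, ∑ i ∈ univ.filter (fun i => i ∉ x ∧ insert i x ∈ U), f x * f (insert i x) := by
    unfold N
    rw [Finset.mul_sum, ← Finset.sum_add_distrib]
    apply Finset.sum_congr rfl
    intro x hx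
    have hx' : x ∈ U := by
      unfold loK at hx
      exact (Finset.mem_filter.1 hx).1
    rw [← Finset.mul_sum, ← Finset.mul_sum, ← mul_add, ← h.eq x hx']
    ring
  rw [h1, CTK_up k U hU f, CTK_three]
  unfold E Bk
  ring

theorem CTK : CTK_stmt := by
  intro d k U l f hU h
  refine ⟨CTK_eq k U hU l f h, ?_, ?_⟩
  · unfold Bk
    exact Finset.sum_nonneg fun x _ => Finset.sum_nonneg fun i _ => mul_nonneg (h.nn _) (h.nn _)
  · rw [CTK_split, h.nrm]

end

end Pool.Agent.PLR
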