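import Pool.Agent.helper69.PLR.CTK

/-! Row EIE of project plr (MP_d9e35a_co). -/

set_option autoImplicit false
set_option linter.unusedVariables false

open scoped Classical

namespace Pool.Agent.PLR

open Finset
open Pool.Agent.helper65.HC (V IsEig IsTop lam)
open Pool.Agent.helper9.HQ (Fam Dn E N Le Eig lk)
open Pool.Agent.helper9.HX (Ef)
open Pool.Agent.helper9.HLR (cel Lc)

noncomputable section

theorem EIE : EIE_stmt := by
  intro d U l f hU h
  have h1 := (CTK d d U l f hU h).1
  have hle : ∀ x : Finset (Fin d), x.card ≤ d := by
    intro x
    have := Finset.card_le_univ x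
    rwa [Fintype.card_fin] at this
  have hlo : loK d U = U := by
    unfold loK
    apply Finset.filter_true_of_mem
    intro x _
    exact hle x
  have hB : Bk d U f = 0 := by
    unfold Bk
    have : U.filter (fun x => x.card = d + 1) = ∅ := by
      apply Finset.filter_false_of_mem
      intro x _ hx
      have := hle x
      omega
    rw [this, Finset.sum_empty]
  rw [hlo, hB, h.nrm] at h1
  linarith

end

end Pool.Agent.PLR
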